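import Pool.Agent.Lib.SC14.NS
import Pool.Agent.Lib.MP_3eff7f_gt_h14.Lift

set_option autoImplicit false

namespace Pool.Agent.Lib.SC14

open Pool.Agent.Lib.MP_3eff7f_gt_h14
open Filter Topology Matrix Set Real
open scoped ContDiff

/-- A curve in `MM` whose local lifts to the sheets solve the Euler-Lagrange equations of the
time dependent metric `GG (η s)` with speed at most `E`. -/
def LocEL (η : ℝ → ℝ) (E : ℝ) (γ : ℝ → MM) : Prop :=
  Continuous γ ∧ ∀ (t : ℝ) (k : KK) (x : E4), x ∈ UU → Phi k x = γ t →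
    ∃ c : ℝ → E4, c t = x ∧ ∀ᶠ s in 𝓝 t, c s ∈ UU ∧ Phi k (c s) = γ s ∧ ContDiffAt ℝ 2 c s ∧
      ELv η c s ∧ bil (GG (η s) (c s)) (deriv c s) (deriv c s) ≤ E ^ 2

variable {η : ℝ → ℝ} {E : ℝ} {γ : ℝ → MM}

theorem LocEL.atChart (h : LocEL η E γ) {k : KK} {a : E4} {t : ℝ} (ht : γ t ∈ (chart k a).source) :
    ContDiffAt ℝ 2 (fun s => chart k a (γ s)) t ∧ ELv η (fun s => chart k a (γ s)) t ∧
      bil (GG (η t) (chart k a (γ t))) (deriv (fun s => chart k a (γ s)) t)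
        (deriv (fun s => chart k a (γ s)) t) ≤ E ^ 2 := by
  have hx := (chart k a).map_source ht
  obtain ⟨c, c1, c2⟩ := h.2 t k _ hx.1 (Phi_chart ht)
  obtain ⟨-, -, a1, a2, a3⟩ := c2.self_of_nhds
  have e : (fun s => chart k a (γ s)) =ᶠ[𝓝 t] c := by
    filter_upwards [c2, a1.continuousAt.eventually
      (show ∀ᶠ y in 𝓝 (c t), y ∈ NN a from c1 ▸ (isOpen_NN a).mem_nhds hx)] with s b1 b2
    rw [← b1.2.1, chart_Phi k b2]
  refine ⟨a1.congr_of_eventuallyEq e, a2.congr e, ?_⟩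
  rwa [e.deriv_eq, ← c1]

variable (hη : Eta η E) (hγ : LocEL η E γ) (hE : 0 ≤ E) {T : ℝ} (hT : 0 < T)
  (hET : E * T ≤ kap / 16)
include hη hγ hE hT hET

theorem confine : ∃ k, ∀ s ∈ Icc 0 T, ∃ x ∈ UU, |x 2| ≤ 1 ∧ Phi k x = γ s := by
  obtain ⟨k, a, ha, e0⟩ := exists_box (γ 0)
  have hk := kap_pos
  have hk1 := kap_le_one
  have h0 := hη.pos
  have h1 := hη.le
  have cγ := hγ.1
  have ce := hη.cont
  let S : Set E4 := {x | tt x ≤ 8 / 5 ∧ x 2 ∈ Icc (-1) 1 ∧ x 3 ∈ Icc 0 (2 * π)}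
  have hS : S ⊆ UU := fun x hx => hx.1.trans_lt (by norm_num)
  have cS : IsCompact S := isCompact_slab
  let Z : Set (ℝ × E4) := {q ∈ Icc 0 T ×ˢ S | Phi k q.2 = γ q.1} ∩
    ({q | log (mu (η q.1) (tt q.2)) ≤ log (mu (η 0) (tt a)) + 2 * E * q.1} ∩
      {q | |q.2 2 - a 2| ≤ 4 / kap * E * q.1})
  have ct : Continuous fun q : ℝ × E4 => tt q.2 := contDiff_tt.continuous.comp continuous_snd
  have cL : Continuous fun q : ℝ × E4 => log (mu (η q.1) (tt q.2)) :=
    (ct.add ((ce.comp continuous_fst).mul (contDiff_psi.continuous.comp ct))).log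
      fun q => (mu_pos (h0 _) (h1 _) (tt_nonneg q.2)).ne'
  have cZ : IsCompact Z := by
    refine ((isCompact_Icc.prod cS).of_isClosed_subset ?_ (sep_subset _ _)).inter_right
      ((isClosed_le cL (by fun_prop)).inter (isClosed_le (by fun_prop) (by fun_prop)))
    exact (isClosed_Icc.prod cS.isClosed).isClosed_eq ((continuousOn_Phi k).comp
      continuousOn_snd fun q hq => hS hq.2) (cγ.comp continuous_fst).continuousOn
  have key : Icc 0 T ⊆ Prod.fst '' Z := by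
    refine ((cZ.image continuous_fst).isClosed.inter isClosed_Icc).Icc_subset_of_forall_mem_nhdsWithin
      ⟨(0, a), ⟨⟨⟨⟨le_rfl, hT.le⟩, ha.1.trans (by norm_num), ?_, ha.2.2⟩, e0⟩, by simp, by simp⟩,
        rfl⟩ ?_
    · have := abs_le.1 ha.2.1
      constructor <;> linarith [this.1, this.2]
    rintro _ ⟨⟨⟨s, x⟩, ⟨⟨⟨-, hx⟩, e⟩, b1, b2⟩, rfl⟩, hs0, hsT⟩
    have hsrc : γ s ∈ (chart k x).source := ⟨x, mem_NN (hS hx), e⟩
    obtain ⟨u, hu, hsub⟩ := mem_nhdsGE_iff_exists_Icc_subset.1 (mem_nhdsWithin_of_mem_nhds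
      (cγ.continuousAt.preimage_mem_nhds ((chart k x).open_source.mem_nhds hsrc)))
    filter_upwards [Ioc_mem_nhdsGT (lt_min hu hsT)] with r hr
    have hr1 := hr.2.trans (min_le_left _ _)
    have hr2 := hr.2.trans (min_le_right _ _)
    have hin : ∀ p ∈ Icc s r, γ p ∈ (chart k x).source := fun p hp => hsub ⟨hp.1, hp.2.trans hr1⟩
    have hd : ∀ p ∈ Icc s r, HasDerivAt (fun p => chart k x (γ p))
        (deriv (fun p => chart k x (γ p)) p) p := fun p hp =>
      ((hγ.atChart (hin p hp)).1.differentiableAt (by simp)).hasDerivAt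
    have hq := fun p hp => (hγ.atChart (hin p hp)).2.2
    have hf := fun p hp => (logmu_var hη hE (hd p hp) (hq p hp)).1
    have m1 := mvt (f := fun p => log (mu (η p) (tt (chart k x (γ p))))) hr.1.le
      (fun p hp => (hf p hp).elim fun _ h => h.1.differentiableAt.hasDerivAt)
      fun p hp => (hf p hp).elim fun _ h => h.1.deriv ▸ h.2
    have m2 := mvt hr.1.le (fun p hp => hasDerivAt_pi.1 (hd p hp) 2)
      fun p hp => theta_le (h0 p) (h1 p) hE (hq p hp)
    have e1 : chart k x (γ s) = x := by rw [← e]; exact chart_Phi k (mem_NN (hS hx))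
    have hy := (chart k x).map_source (hin r (right_mem_Icc.2 hr.1.le))
    have e2 := Phi_chart (hin r (right_mem_Icc.2 hr.1.le))
    simp only [e1] at m1 m2
    generalize chart k x (γ r) = y at m1 m2 hy e2
    obtain ⟨n, hn⟩ := exists_shift (y 3)
    obtain ⟨e3, e4⟩ := Phi_shift k (x' := ![y 0, y 1, y 2, y 3 + 2 * π * n]) hy.1 n rfl rfl rfl rfl
    have c1 : log (mu (η r) (tt y)) ≤ log (mu (η 0) (tt a)) + 2 * E * r := by
      have : log (mu (η s) (tt x)) ≤ log (mu (η 0) (tt a)) + 2 * E * s := b1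
      linarith [(abs_le.1 m1).2]
    have c2 : |y 2 - a 2| ≤ 4 / kap * E * r := by
      have : |x 2 - a 2| ≤ 4 / kap * E * s := b2
      linarith [abs_sub_le (y 2) (x 2) (a 2)]
    have c3 : E * r ≤ kap / 16 := le_trans (by gcongr) hET
    refine ⟨(r, ![y 0, y 1, y 2, y 3 + 2 * π * n]), ⟨⟨⟨⟨hs0.trans hr.1.le, hr2⟩, ?_, ?_, hn⟩,
      e4.trans e2⟩, by simpa only [mem_setOf_eq, e3] using c1, c2⟩, rfl⟩
    · change tt _ ≤ _
      rw [e3]
      have d1 : mu (η 0) (tt a) ≤ 6 / 5 :=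
        (mu_mono (h0 0) (h1 0) ha.1).trans (mu_eq _ (by norm_num)).le
      have d2 : mu (η r) (tt y) ≤ mu (η 0) (tt a) * exp (1 / 8) := by
        rw [← exp_log (mu_pos (h0 r) (h1 r) (tt_nonneg y)),
          ← exp_log (mu_pos (h0 0) (h1 0) (tt_nonneg a)), ← exp_add]
        exact exp_le_exp.2 (by linarith)
      have d3 : exp (1 / 8) ≤ 4 / 3 :=
        (exp_bound_div_one_sub_of_interval (by norm_num) (by norm_num)).trans (by norm_num)
      have d4 : mu (η 0) (tt a) * exp (1 / 8) ≤ 6 / 5 * (4 / 3) := by gcongr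
      linarith [le_mu (h0 r) (tt y)]
    · have d1 : 4 / kap * E * r ≤ 1 / 4 := by
        rw [mul_assoc, div_mul_eq_mul_div, div_le_iff₀ hk]
        linarith
      have d2 := abs_le.1 (c2.trans d1)
      have d3 := abs_le.1 ha.2.1
      change y 2 ∈ _
      constructor <;> linarith [d2.1, d2.2, d3.1, d3.2]
  refine ⟨k, fun s hs => ?_⟩
  obtain ⟨⟨_, x⟩, ⟨⟨⟨-, hx⟩, e⟩, -⟩, rfl⟩ := key hs
  exact ⟨x, hS hx, abs_le.2 hx.2.1, e⟩

theorem exists_lift (hp : Function.Periodic γ T) : ∃ (k : KK) (c : ℝ → E4), Continuous c ∧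
    ∀ s, c s ∈ UU ∧ |c s 2| ≤ 1 ∧ Phi k (c s) = γ s := by
  obtain ⟨k, hk⟩ := confine hη hγ hE hT hET
  have : ∀ s, ∃ x ∈ UU, |x 2| ≤ 1 ∧ Phi k x = γ s := fun s => by
    obtain ⟨r, hr, e⟩ := hp.exists_mem_Ico₀ hT s
    rw [e]
    exact hk r (Ico_subset_Icc_self hr)
  choose X X1 X2 X3 using this
  have loc : ∀ s, ∃ c : ℝ → E4, ContinuousAt c s ∧ ∀ᶠ r in 𝓝 s, X r 0 = c r 0 ∧ X r 1 = c r 1 ∧
      X r 2 = c r 2 ∧ ∃ n : ℤ, X r 3 = c r 3 + 2 * π * n := fun s => by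
    have hsrc : γ s ∈ (chart k (X s)).source := ⟨_, mem_NN (X1 s), X3 s⟩
    refine ⟨_, (hγ.atChart hsrc).1.continuousAt, ?_⟩
    filter_upwards [hγ.1.continuousAt.eventually
      ((chart k (X s)).open_source.mem_nhds hsrc)] with r hr
    have hy := (chart k (X s)).map_source hr
    refine Phi_same hy.1 (X1 r) ((Phi_chart hr).trans (X3 r).symm) ?_
    have a1 := abs_lt.1 hy.2.1
    have a2 := abs_le.1 (X2 r)
    have a3 := abs_le.1 (X2 s)
    exact abs_lt.2 ⟨by linarith [a1.2, a2.1, a3.2], by linarith [a1.1, a2.2, a3.1]⟩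
  have cζ : Continuous fun s => Circle.exp (X s 3) := continuous_iff_continuousAt.2 fun s => by
    obtain ⟨c, c1, c2⟩ := loc s
    refine (Circle.exp.continuous.continuousAt.comp (continuousAt_pi.1 c1 3)).congr ?_
    filter_upwards [c2] with r ⟨_, _, _, n, hn⟩
    exact (Circle.exp_eq_exp.2 ⟨n, by rw [hn]; ring⟩).symm
  obtain ⟨β, ⟨-, hβ⟩, -⟩ := Circle.isCoveringMap_exp.existsUnique_continuousMap_lifts ⟨_, cζ⟩ 0
    (X 0 3) rfl
  refine ⟨k, fun s => ![X s 0, X s 1, X s 2, β s], continuous_pi fun i => ?_, fun s => ?_⟩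
  · fin_cases i
    · exact continuous_iff_continuousAt.2 fun s => (loc s).elim fun c h =>
        (continuousAt_pi.1 h.1 0).congr (h.2.mono fun r hr => hr.1.symm)
    · exact continuous_iff_continuousAt.2 fun s => (loc s).elim fun c h =>
        (continuousAt_pi.1 h.1 1).congr (h.2.mono fun r hr => hr.2.1.symm)
    · exact continuous_iff_continuousAt.2 fun s => (loc s).elim fun c h =>
        (continuousAt_pi.1 h.1 2).congr (h.2.mono fun r hr => hr.2.2.1.symm)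
    · exact β.continuous
  · obtain ⟨n, hn⟩ := Circle.exp_eq_exp.1 (congrFun hβ s)
    obtain ⟨e1, e2⟩ := Phi_shift k (x' := ![X s 0, X s 1, X s 2, β s]) (X1 s) n rfl rfl rfl
      (by simp [hn, mul_comm])
    exact ⟨show tt _ < 2 from e1 ▸ X1 s, X2 s, e2.trans (X3 s)⟩

/-- A short periodic solution is constant. -/
theorem short_const (hp : Function.Periodic γ T) (s t : ℝ) : γ s = γ t := by
  obtain ⟨k, c, cc, hc⟩ := exists_lift hη hγ hE hT hET hp
  have hsrc : ∀ s, γ s ∈ (chart k (c s)).source := fun s => ⟨_, mem_NN (hc s).1, (hc s).2.2⟩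
  have ev : ∀ s, c =ᶠ[𝓝 s] fun r => chart k (c s) (γ r) := fun s => by
    filter_upwards [cc.continuousAt.eventually ((isOpen_NN _).mem_nhds (mem_NN (hc s).1))]
      with r hr
    rw [← (hc r).2.2, chart_Phi k hr]
  have d2 : ∀ s, ContDiffAt ℝ 2 c s := fun s =>
    (hγ.atChart (hsrc s)).1.congr_of_eventuallyEq (ev s)
  have hg : ∀ s, ELv η c s := fun s => (hγ.atChart (hsrc s)).2.1.congr (ev s)
  have hq : ∀ s, bil (GG (η s) (c s)) (deriv c s) (deriv c s) ≤ E ^ 2 := fun s => by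
    have := (hγ.atChart (hsrc s)).2.2
    rwa [← (ev s).deriv_eq, ← (ev s).eq_of_nhds] at this
  have per := fun s => Phi_same (hc s).1 (hc (s + T)).1 (k := k)
    (by rw [(hc _).2.2, (hc _).2.2, hp s]) (by
      have a1 := abs_le.1 (hc s).2.1
      have a2 := abs_le.1 (hc (s + T)).2.1
      exact abs_lt.2 ⟨by linarith [a1.2, a2.1], by linarith [a1.1, a2.2]⟩)
  obtain ⟨j, hj⟩ := (per 0).2.2.2
  have hz := no_short hη d2 hg hE hq hT (fun s => (per s).1) (fun s => (per s).2.1)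
    (fun s => (per s).2.2.1) (j := j) (by rw [zero_add] at hj; linarith) (fun s => (hc s).1) hET
  rw [← (hc s).2.2, ← (hc t).2.2, is_const_of_deriv_eq_zero
    (fun s => (d2 s).differentiableAt (by simp)) hz s t]

end Pool.Agent.Lib.SC14
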