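import Pool.Agent.Lib.MP_3eff7f_gt_h14.Ode

set_option autoImplicit false

namespace Pool.Agent.Lib.SC14

open Pool.Agent.Lib.MP_3eff7f_gt_h14
open Filter Topology Matrix Set Real
open scoped ContDiff

/-- The Euler-Lagrange identity at time `t` for the time dependent metric `GG (η s)`. -/
def ELv (η : ℝ → ℝ) (c : ℝ → E4) (t : ℝ) : Prop :=
  ∀ (w : ℝ → E4) (w' : E4), HasDerivAt w w' t →
    HasDerivAt (fun s => bil (GG (η s) (c s)) (deriv c s) (w s))
      (1 / 2 * fderiv ℝ (fun y => bil (GG (η t) y) (deriv c t) (deriv c t)) (c t) (w t) +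
        bil (GG (η t) (c t)) (deriv c t) w') t

theorem ELv.congr {η : ℝ → ℝ} {c c' : ℝ → E4} {t : ℝ} (h : ELv η c t) (e : c' =ᶠ[𝓝 t] c) :
    ELv η c' t := by
  intro w w' hw
  rw [e.eq_of_nhds, e.deriv_eq]
  refine (h w w' hw).congr_of_eventuallyEq ?_
  filter_upwards [e, e.deriv] with s a b
  rw [a, b]

/-- An admissible thinness parameter along a curve of speed at most `E`. -/
structure Eta (η : ℝ → ℝ) (E : ℝ) : Prop where
  pos : ∀ s, 0 < η s
  le : ∀ s, η s ≤ 1 / 4
  der : ∀ s, ∃ d, HasDerivAt η d s ∧ |d| ≤ E * η s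

theorem Eta.cont {η : ℝ → ℝ} {E : ℝ} (h : Eta η E) : Continuous η :=
  continuous_iff_continuousAt.2 fun s => (h.der s).elim fun _ hd => hd.1.continuousAt

section

variable {η : ℝ} (h0 : 0 < η) (h1 : η ≤ 1 / 4)
include h0 h1

theorem theta_le {x v : E4} {E : ℝ} (hE : 0 ≤ E) (h : bil (GG η x) v v ≤ E ^ 2) :
    |v 2| ≤ 4 / kap * E := by
  have hq := quad_lower h0 h1 x v
  have hH := Hf_pos h0 h1 x
  have hL := Lf_ge x
  have hk := kap_pos
  have a1 : 0 ≤ 4 * (x 0 * v 0 + x 1 * v 1) ^ 2 / mu η (tt x) ^ 2 := by positivity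
  have a3 : 0 ≤ Hf η (tt x) * v 3 ^ 2 := by positivity
  have a4 : (kap / 4) ^ 2 * v 2 ^ 2 ≤ E ^ 2 := by nlinarith [sq_nonneg (v 2)]
  refine abs_le_of_sq_le_sq' ?_ (by positivity) |> abs_le.2
  rw [show (4 / kap * E) ^ 2 = E ^ 2 / (kap / 4) ^ 2 by field_simp, le_div_iff₀ (by positivity)]
  linarith

theorem logmu_le {x v : E4} {E : ℝ} (hE : 0 ≤ E) (h : bil (GG η x) v v ≤ E ^ 2) :
    |deriv (mu η) (tt x) * (2 * (x 0 * v 0 + x 1 * v 1)) / mu η (tt x)| ≤ E := by
  have hq := quad_lower h0 h1 x v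
  have hH := Hf_pos h0 h1 x
  have hL := Lf_pos x
  have hm := mu_pos h0 h1 (tt_nonneg x)
  obtain ⟨d1, d2⟩ := mu_deriv h0 h1 (tt x)
  have a2 : 0 ≤ Lf (tt x) * v 2 ^ 2 := by positivity
  have a3 : 0 ≤ Hf η (tt x) * v 3 ^ 2 := by positivity
  have a1 : 0 ≤ 4 * (x 0 * v 0 + x 1 * v 1) ^ 2 / mu η (tt x) ^ 2 := by positivity
  refine abs_le_of_sq_le_sq' ?_ hE |> abs_le.2
  rw [show (deriv (mu η) (tt x) * (2 * (x 0 * v 0 + x 1 * v 1)) / mu η (tt x)) ^ 2 =
    deriv (mu η) (tt x) ^ 2 * (4 * (x 0 * v 0 + x 1 * v 1) ^ 2 / mu η (tt x) ^ 2) by ring]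
  have : deriv (mu η) (tt x) ^ 2 ≤ 1 := by nlinarith
  nlinarith

end

theorem psi_hd (t : ℝ) : HasDerivAt psi (deriv psi t) t :=
  (contDiff_psi.differentiable (by simp) t).hasDerivAt

theorem deriv_mu_eq (η t : ℝ) : deriv (mu η) t = 1 + η * deriv psi t :=
  ((hasDerivAt_id t).add ((psi_hd t).const_mul η)).deriv

theorem deriv_Bf_eq {η t : ℝ} (h : mu η t ≠ 0) :
    deriv (Bf η) t = (-8 / mu η t ^ 3 + η / mu η t ^ 2) * (1 + η * deriv psi t) := by
  have a := hasDerivAt_mu η t
  have := (((hasDerivAt_const t (4 : ℝ)).div (a.pow 2) (pow_ne_zero 2 h)).sub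
    ((hasDerivAt_const t η).div a h)).deriv
  refine Eq.trans this ?_
  rw [deriv_mu_eq]
  simp only [Pi.pow_apply]
  field_simp
  ring

/-- The logarithm of `mu` along a curve, with and without the factor `η`. -/
theorem logmu_var {η : ℝ → ℝ} {E : ℝ} (hη : Eta η E) (hE : 0 ≤ E) {c : ℝ → E4} {v : E4} {s : ℝ}
    (h : HasDerivAt c v s) (hs : bil (GG (η s) (c s)) v v ≤ E ^ 2) :
    (∃ d, HasDerivAt (fun r => log (mu (η r) (tt (c r)))) d s ∧ |d| ≤ 2 * E) ∧
    ∃ d, HasDerivAt (fun r => log (mu (η r) (tt (c r))) - log (η r)) d s ∧ |d| ≤ 2 * E := by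
  obtain ⟨d, hd, hb⟩ := hη.der s
  have h0 := hη.pos s
  have hm := mu_pos h0 (hη.le s) (tt_nonneg (c s))
  have ht := hasDerivAt_tt h
  have a : HasDerivAt (fun r => mu (η r) (tt (c r)))
      (deriv (mu (η s)) (tt (c s)) * (2 * (c s 0 * v 0 + c s 1 * v 1)) + d * psi (tt (c s))) s := by
    refine (ht.add (hd.mul ((psi_hd _).comp s ht))).congr_deriv ?_
    rw [deriv_mu_eq]
    simp only [Function.comp_apply]
    ring
  have b := logmu_le h0 (hη.le s) hE hs
  have p0 := psi_nonneg (tt (c s))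
  have t0 := tt_nonneg (c s)
  have em : mu (η s) (tt (c s)) = tt (c s) + η s * psi (tt (c s)) := rfl
  constructor
  · refine ⟨_, a.log hm.ne', ?_⟩
    rw [add_div]
    refine (abs_add_le _ _).trans ?_
    have : |d * psi (tt (c s)) / mu (η s) (tt (c s))| ≤ E := by
      rw [abs_div, abs_mul, abs_of_nonneg p0, abs_of_pos hm, div_le_iff₀ hm, em]
      nlinarith [mul_le_mul_of_nonneg_right hb p0, mul_nonneg hE t0]
    linarith
  · refine ⟨_, (a.log hm.ne').sub (hd.log h0.ne'), ?_⟩
    have e : (deriv (mu (η s)) (tt (c s)) * (2 * (c s 0 * v 0 + c s 1 * v 1)) +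
        d * psi (tt (c s))) / mu (η s) (tt (c s)) - d / η s =
        deriv (mu (η s)) (tt (c s)) * (2 * (c s 0 * v 0 + c s 1 * v 1)) / mu (η s) (tt (c s)) -
          d * tt (c s) / (η s * mu (η s) (tt (c s))) := by
      field_simp
      rw [em]
      ring
    rw [e]
    refine (abs_sub _ _).trans ?_
    have : |d * tt (c s) / (η s * mu (η s) (tt (c s)))| ≤ E := by
      rw [abs_div, abs_mul, abs_of_nonneg t0, abs_of_pos (mul_pos h0 hm),
        div_le_iff₀ (mul_pos h0 hm)]
      have := le_mu h0 (tt (c s))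
      nlinarith [mul_le_mul_of_nonneg_right hb t0,
        mul_le_mul_of_nonneg_left this (mul_nonneg hE h0.le)]
    linarith

section

variable {η : ℝ → ℝ} {E : ℝ} (hη : Eta η E) {c : ℝ → E4} (hc : ∀ s, ContDiffAt ℝ 2 c s)
  (hg : ∀ s, ELv η c s)
include hη hc hg

theorem n_alpha (s : ℝ) : HasDerivAt (fun s => η s * JJ c s) 0 s := by
  have hw : HasDerivAt (fun s => (![-c s 1, c s 0, 0, 0] : E4))
      ![-deriv c s 1, deriv c s 0, 0, 0] s := by
    refine hasDerivAt_pi.2 fun i => ?_
    fin_cases i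
    · exact (hasDerivAt_pi.1 (hd1 hc s) 1).neg
    · exact hasDerivAt_pi.1 (hd1 hc s) 0
    · exact hasDerivAt_const _ _
    · exact hasDerivAt_const _ _
  have := hg s _ _ hw
  rw [fderiv_GG (hη.pos s) (hη.le s)] at this
  simp only [GG, bil_Gm] at this
  refine (this.congr_deriv ?_).congr_of_eventuallyEq (Eventually.of_forall fun r => ?_)
  · simp
    ring
  · simp [JJ, tt]
    ring_nf

omit hc in
theorem n_beta (s : ℝ) : HasDerivAt
    (fun s => c s 2 * (η s * JJ c s) + Hf (η s) (tt (c s)) * deriv c s 3) 0 s := by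
  have := hg s _ _ (hasDerivAt_const s (![0, 0, 0, 1] : E4))
  rw [fderiv_GG (hη.pos s) (hη.le s)] at this
  simp only [GG, bil_Gm] at this
  refine (this.congr_deriv ?_).congr_of_eventuallyEq (Eventually.of_forall fun r => ?_)
  · simp
  · simp [JJ, tt]
    ring

omit hc in
theorem n_theta (s : ℝ) :
    HasDerivAt (fun s => Lf (tt (c s)) * deriv c s 2) (η s * JJ c s * deriv c s 3) s := by
  have := hg s _ _ (hasDerivAt_const s (![0, 0, 1, 0] : E4))
  rw [fderiv_GG (hη.pos s) (hη.le s)] at this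
  simp only [GG, bil_Gm] at this
  refine (this.congr_deriv ?_).congr_of_eventuallyEq (Eventually.of_forall fun r => ?_)
  · simp [JJ, tt]
    ring
  · simp

theorem n_rad (s : ℝ) (hρ : c s 0 * deriv c s 0 + c s 1 * deriv c s 1 = 0) :
    ∃ D : ℝ, tt (c s) * D = JJ c s ^ 2 ∧ 0 ≤ D ∧
      HasDerivAt (fun s => (η s + Bf (η s) (tt (c s)) * tt (c s)) *
        (c s 0 * deriv c s 0 + c s 1 * deriv c s 1))
      (η s * D + tt (c s) * (deriv Lf (tt (c s)) * deriv c s 2 ^ 2 -
        η s * deriv (mu (η s)) (tt (c s)) / mu (η s) (tt (c s)) ^ 2 * deriv c s 3 ^ 2)) s := by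
  have hw : HasDerivAt (fun s => (![c s 0, c s 1, 0, 0] : E4))
      ![deriv c s 0, deriv c s 1, 0, 0] s := by
    refine hasDerivAt_pi.2 fun i => ?_
    fin_cases i
    · exact hasDerivAt_pi.1 (hd1 hc s) 0
    · exact hasDerivAt_pi.1 (hd1 hc s) 1
    · exact hasDerivAt_const _ _
    · exact hasDerivAt_const _ _
  have := hg s _ _ hw
  rw [fderiv_GG (hη.pos s) (hη.le s)] at this
  simp only [GG, bil_Gm] at this
  refine ⟨(deriv c s 0 - c s 2 * c s 1 * deriv c s 3) ^ 2 +
    (deriv c s 1 + c s 2 * c s 0 * deriv c s 3) ^ 2, ?_, by positivity,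
    (this.congr_deriv ?_).congr_of_eventuallyEq (Eventually.of_forall fun r => ?_)⟩
  · simp only [JJ, tt]
    linear_combination (c s 0 * deriv c s 0 + c s 1 * deriv c s 1) * hρ
  · simp [hρ, tt]
    ring
  · simp [tt]
    ring

/-- A purely planar motion that stops once stays at rest. -/
theorem n_rest (hθ : ∀ s, deriv c s 2 = 0) (hβ : ∀ s, deriv c s 3 = 0) {a b : ℝ}
    (h0 : deriv c a 0 = 0) (h1 : deriv c a 1 = 0) (hab : a ≤ b) :
    deriv c b 0 = 0 ∧ deriv c b 1 = 0 := by
  let ρ : ℝ → ℝ := fun s => c s 0 * deriv c s 0 + c s 1 * deriv c s 1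
  let B : ℝ → ℝ := fun s => Bf (η s) (tt (c s))
  let B' : ℝ → ℝ := fun s => deriv (Bf (η s)) (tt (c s))
  let p0 : ℝ → ℝ := fun s => η s * deriv c s 0 + B s * ρ s * c s 0
  let p1 : ℝ → ℝ := fun s => η s * deriv c s 1 + B s * ρ s * c s 1
  let m0 : ℝ → ℝ := fun s => B s * deriv c s 0 + c s 0 * B' s * ρ s
  let m1 : ℝ → ℝ := fun s => B s * deriv c s 1 + c s 1 * B' s * ρ s
  let l : ℝ → ℝ := fun s => η s + B s * tt (c s)
  have hl : ∀ s, 0 < l s := fun s => lam_pos (hη.pos s) (hη.le s) (c s)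
  have d0 : ∀ s, HasDerivAt p0 (ρ s * m0 s) s := fun s => by
    have := hg s _ _ (hasDerivAt_const s (![1, 0, 0, 0] : E4))
    rw [fderiv_GG (hη.pos s) (hη.le s)] at this
    simp only [GG, bil_Gm, hθ, hβ] at this
    refine (this.congr_deriv ?_).congr_of_eventuallyEq (Eventually.of_forall fun r => ?_)
    · simp [ρ, m0, B, B']
      ring
    · simp [p0, ρ, B]
      ring
  have d1 : ∀ s, HasDerivAt p1 (ρ s * m1 s) s := fun s => by
    have := hg s _ _ (hasDerivAt_const s (![0, 1, 0, 0] : E4))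
    rw [fderiv_GG (hη.pos s) (hη.le s)] at this
    simp only [GG, bil_Gm, hθ, hβ] at this
    refine (this.congr_deriv ?_).congr_of_eventuallyEq (Eventually.of_forall fun r => ?_)
    · simp [ρ, m1, B, B']
      ring
    · simp [p1, ρ, B]
      ring
  have e : ∀ s, l s * ρ s = c s 0 * p0 s + c s 1 * p1 s := fun s => by
    simp only [l, p0, p1, ρ, tt]
    ring
  have cc : Continuous c := continuous_iff_continuousAt.2 fun s => (hc s).continuousAt
  have cv : Continuous (deriv c) := continuous_iff_continuousAt.2 fun s =>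
    (hasDerivAt_deriv_of_two (hc s)).continuousAt
  have ce := hη.cont
  have ct : Continuous fun s => tt (c s) := contDiff_tt.continuous.comp cc
  have hm : ∀ s, mu (η s) (tt (c s)) ≠ 0 := fun s =>
    (mu_pos (hη.pos s) (hη.le s) (tt_nonneg _)).ne'
  have cm : Continuous fun s => mu (η s) (tt (c s)) :=
    ct.add (ce.mul (contDiff_psi.continuous.comp ct))
  have cB : Continuous B :=
    (continuous_const.div (cm.pow 2) fun s => pow_ne_zero 2 (hm s)).sub (ce.div cm hm)
  have cB' : Continuous B' := by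
    simp only [B', deriv_Bf_eq (hm _)]
    exact ((continuous_const.div (cm.pow 3) fun s => pow_ne_zero 3 (hm s)).add
      (ce.div (cm.pow 2) fun s => pow_ne_zero 2 (hm s))).mul (continuous_const.add
        (ce.mul ((contDiff_psi.continuous_deriv (by simp)).comp ct)))
  have cρ : Continuous ρ := by fun_prop
  have ck : Continuous fun s => (tt (c s) + (m0 s ^ 2 + m1 s ^ 2)) / l s :=
    Continuous.div (by fun_prop) (by fun_prop) fun s => (hl s).ne'
  obtain ⟨K, hK⟩ := (isCompact_Icc (a := a) (b := b)).exists_bound_of_continuousOn ck.continuousOn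
  have df : ∀ s, HasDerivAt (fun s => p0 s ^ 2 + p1 s ^ 2)
      (2 * ρ s * (p0 s * m0 s + p1 s * m1 s)) s := fun s =>
    (((d0 s).pow 2).add ((d1 s).pow 2)).congr_deriv (by simp; ring)
  have z := eq_zero_of_abs_deriv_le_mul_abs_self_of_eq_zero_right (K := K)
    (fun s _ => (df s).continuousAt.continuousWithinAt) (fun s _ => (df s).hasDerivWithinAt)
    (by simp [p0, p1, ρ, h0, h1]) (fun s hs => by
      have k := hK s (Ico_subset_Icc_self hs)
      rw [norm_eq_abs] at k
      have k2 := (le_abs_self _).trans k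
      rw [div_le_iff₀ (hl s)] at k2
      rw [norm_eq_abs, norm_eq_abs, abs_of_nonneg (a := p0 s ^ 2 + p1 s ^ 2) (by positivity)]
      refine le_of_mul_le_mul_left ?_ (hl s)
      rw [← abs_of_pos (hl s), ← abs_mul, abs_of_pos (hl s),
        show l s * (2 * ρ s * (p0 s * m0 s + p1 s * m1 s)) =
          2 * (l s * ρ s) * (p0 s * m0 s + p1 s * m1 s) by ring, e]
      have q1 : (c s 0 * p0 s + c s 1 * p1 s) ^ 2 ≤ tt (c s) * (p0 s ^ 2 + p1 s ^ 2) := by
        unfold tt
        nlinarith [sq_nonneg (c s 0 * p1 s - c s 1 * p0 s)]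
      have q2 : (p0 s * m0 s + p1 s * m1 s) ^ 2 ≤
          (m0 s ^ 2 + m1 s ^ 2) * (p0 s ^ 2 + p1 s ^ 2) := by
        nlinarith [sq_nonneg (m0 s * p1 s - m1 s * p0 s)]
      have q3 := mul_le_mul_of_nonneg_right k2 (show 0 ≤ p0 s ^ 2 + p1 s ^ 2 by positivity)
      rw [abs_le]
      constructor <;>
        nlinarith [sq_nonneg (c s 0 * p0 s + c s 1 * p1 s + (p0 s * m0 s + p1 s * m1 s)),
          sq_nonneg (c s 0 * p0 s + c s 1 * p1 s - (p0 s * m0 s + p1 s * m1 s))])
    b (right_mem_Icc.2 hab)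
  have z0 : p0 b = 0 := by nlinarith [sq_nonneg (p0 b), sq_nonneg (p1 b)]
  have z1 : p1 b = 0 := by nlinarith [sq_nonneg (p0 b), sq_nonneg (p1 b)]
  have zρ : ρ b = 0 := by simpa [z0, z1, (hl b).ne'] using e b
  simp only [p0, p1, zρ, mul_zero, zero_mul, add_zero, mul_eq_zero, (hη.pos b).ne',
    false_or] at z0 z1
  exact ⟨z0, z1⟩

theorem no_short (hE : 0 ≤ E) {T : ℝ}
    (hs : ∀ s, bil (GG (η s) (c s)) (deriv c s) (deriv c s) ≤ E ^ 2) (hT : 0 < T)
    (p0 : ∀ s, c (s + T) 0 = c s 0) (p1 : ∀ s, c (s + T) 1 = c s 1)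
    (p2 : ∀ s, c (s + T) 2 = c s 2) {j : ℤ} (p3 : c T 3 - c 0 3 = 2 * π * j)
    (hU : ∀ s, tt (c s) < 2) (hET : E * T ≤ kap / 16) (s : ℝ) : deriv c s = 0 := by
  have hk := kap_pos
  have hk1 := kap_le_one
  have h0 := hη.pos
  have h1 := hη.le
  have d : ∀ i s, HasDerivAt (fun s => c s i) (deriv c s i) s := fun i s =>
    hasDerivAt_pi.1 (hd1 hc s) i
  have dt := fun s => hasDerivAt_tt (hd1 hc s)
  have ct : Continuous fun s => tt (c s) := continuous_iff_continuousAt.2 fun s =>
    (dt s).continuousAt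
  have pt : Function.Periodic (fun s => tt (c s)) T := fun s => by simp only [tt, p0, p1]
  have hJ := const_of_deriv (n_alpha hη hc hg)
  have hB := const_of_deriv (n_beta hη hg)
  have hlam := fun s => lam_pos (h0 s) (h1 s) (c s)
  have crit : ∀ s, (∀ r, tt (c r) ≤ tt (c s)) ∨ (∀ r, tt (c s) ≤ tt (c r)) →
      c s 0 * deriv c s 0 + c s 1 * deriv c s 1 = 0 := by
    intro s h
    have : 2 * (c s 0 * deriv c s 0 + c s 1 * deriv c s 1) = 0 := by
      rcases h with h | h
      · exact IsLocalMax.hasDerivAt_eq_zero (Eventually.of_forall h) (dt s)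
      · exact IsLocalMin.hasDerivAt_eq_zero (Eventually.of_forall h) (dt s)
    linarith
  obtain ⟨sM, hsM, hM⟩ := exists_max hT pt ct
  have rolle : ∀ i, c T i = c 0 i → ∃ s ∈ Icc 0 T, deriv c s i = 0 := fun i hi => by
    obtain ⟨s, hs, e⟩ := exists_hasDerivAt_eq_zero (f := fun s => c s i) hT
      (fun r _ => (d i r).continuousAt.continuousWithinAt) hi.symm fun r _ => d i r
    exact ⟨s, Ioo_subset_Icc_self hs, e⟩
  have pd : ∀ i, (∀ s, c (s + T) i = c s i) → Function.Periodic (fun s => deriv c s i) T :=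
    fun i hi r => by
      refine HasDerivAt.unique ?_ (d i r)
      simpa only [hi] using (d i (r + T)).comp_add_const r T
  by_cases hA : η 0 * JJ c 0 = 0
  · have hJ0 : ∀ s, η s * JJ c s = 0 := fun s => (hJ s 0).trans hA
    have hθ : ∀ s, deriv c s 2 = 0 := by
      obtain ⟨r, -, hr⟩ := rolle 2 (by simpa using p2 0)
      intro s
      have := const_of_deriv (f := fun s => Lf (tt (c s)) * deriv c s 2)
        (fun s => (n_theta hη hg s).congr_deriv (by rw [hJ0, zero_mul])) s r
      simpa [hr, (Lf_pos _).ne'] using this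
    simp only [hJ0, mul_zero, zero_add] at hB
    by_cases hb : deriv c 0 3 = 0
    · have hβ : ∀ s, deriv c s 3 = 0 := fun s => by
        simpa [hb, (Hf_pos (h0 s) (h1 s) _).ne'] using hB s 0
      have hJM : JJ c sM = 0 := by simpa [(h0 sM).ne'] using hJ0 sM
      have z : deriv c sM 0 = 0 ∧ deriv c sM 1 = 0 := by
        rcases (tt_nonneg (c sM)).eq_or_lt with h | h
        · have z : ∀ r, c r 0 = 0 ∧ c r 1 = 0 := fun r => by
            have := hM r
            rw [← h, tt] at this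
            constructor <;> nlinarith [sq_nonneg (c r 0), sq_nonneg (c r 1)]
          exact ⟨(d 0 sM).unique (by simpa only [(z _).1] using hasDerivAt_const sM (0 : ℝ)),
            (d 1 sM).unique (by simpa only [(z _).2] using hasDerivAt_const sM (0 : ℝ))⟩
        · have a := crit sM (Or.inl hM)
          simp only [JJ, hβ, mul_zero, add_zero] at hJM
          constructor <;> apply mul_left_cancel₀ h.ne' <;> unfold tt
          · linear_combination c sM 0 * a - c sM 1 * hJM
          · linear_combination c sM 1 * a + c sM 0 * hJM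
      ext i
      fin_cases i
      · obtain ⟨y, hy, e⟩ := (pd 0 p0).exists_mem_Ico hT s sM
        exact e.trans (n_rest hη hc hg hθ hβ z.1 z.2 hy.1).1
      · obtain ⟨y, hy, e⟩ := (pd 1 p1).exists_mem_Ico hT s sM
        exact e.trans (n_rest hη hc hg hθ hβ z.1 z.2 hy.1).2
      · exact hθ s
      · exact hβ s
    · exfalso
      have hβ : ∀ s, deriv c s 3 ≠ 0 := fun s h => by
        have := hB s 0
        rw [h, mul_zero] at this
        exact mul_ne_zero (Hf_pos (h0 0) (h1 0) _).ne' hb this.symm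
      obtain ⟨sm, hsm, hm⟩ := exists_max hT (f := fun s => -tt (c s)) (fun s => by
        simp only [pt s]) ct.neg
      have hm' : ∀ r, tt (c sm) ≤ tt (c r) := fun r => by linarith [hm r]
      rcases (tt_nonneg (c sm)).eq_or_lt with h | h
      · choose f f1 f2 using fun s => (logmu_var hη hE (hd1 hc s) (hs s)).2
        have b1 : ∀ s ∈ Icc 0 T, mu (η s) (tt (c s)) ≤ η s * kap * exp (2 * E * T) :=
          fun s hs' => by
            have := mvt' hsm hs' (by positivity) f1 fun s _ => f2 s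
            rw [← h, mu_zero, log_mul (h0 sm).ne' hk.ne'] at this
            have h2 := (abs_le.1 this).2
            rw [← exp_log (mu_pos (h0 s) (h1 s) (tt_nonneg (c s))), ← exp_log (mul_pos (h0 s) hk),
              ← exp_add, log_mul (h0 s).ne' hk.ne']
            exact exp_le_exp.2 (by linarith)
        have b2 : exp (2 * E * T) ≤ 4 := by
          have : exp (2 * E * T) ≤ exp 1 := exp_le_exp.2 (by linarith)
          linarith [exp_one_lt_d9]
        have b3 : ∀ s ∈ Icc 0 T, |deriv c s 3| ≤ 2 * E := fun s hs' => by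
          have hq := quad_lower (h0 s) (h1 s) (c s) (deriv c s)
          have hm := mu_pos (h0 s) (h1 s) (tt_nonneg (c s))
          have a1 : 0 ≤ 4 * (c s 0 * deriv c s 0 + c s 1 * deriv c s 1) ^ 2 /
            mu (η s) (tt (c s)) ^ 2 := by positivity
          have a2 : 1 / 4 ≤ Hf (η s) (tt (c s)) := by
            rw [Hf, le_div_iff₀ hm]
            have := b1 s hs'
            have a := (h0 s).le
            have : η s * kap * exp (2 * E * T) ≤ η s * 1 * 4 := by gcongr
            linarith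
          have hq2 := hq.trans (hs s)
          rw [hθ] at hq2
          refine abs_le_of_sq_le_sq' ?_ (by positivity) |> abs_le.2
          nlinarith [sq_nonneg (deriv c s 3)]
        have b4 := mvt hT.le (fun s _ => d 3 s) b3
        rw [p3] at b4
        have b5 : j = 0 := by
          by_contra hj
          have : (1 : ℝ) ≤ |(j : ℝ)| := by exact_mod_cast Int.one_le_abs hj
          rw [abs_mul, abs_of_pos two_pi_pos] at b4
          nlinarith [pi_gt_three]
        obtain ⟨r, -, hr⟩ := rolle 3 (by rw [b5] at p3; simpa [sub_eq_zero] using p3)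
        exact hβ r hr
      · obtain ⟨D, D1, D2, D4⟩ := n_rad hη hc hg sm (crit sm (Or.inr hm'))
        have hJm : JJ c sm = 0 := by simpa [(h0 sm).ne'] using hJ0 sm
        have hD : D = 0 := by simpa [hJm, h.ne'] using D1
        refine not_max (f := fun s => -tt (c s)) (fun r => (dt r).neg) D4.neg
          (by simp [crit sm (Or.inr hm')]) ?_ (fun r hr => ?_) hm
        · have a0 := h0 sm
          have a1 := mu_pos a0 (h1 sm) (tt_nonneg (c sm))
          have a2 := (mu_deriv a0 (h1 sm) (tt (c sm))).1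
          have a3 : 0 < deriv (mu (η sm)) (tt (c sm)) := by linarith
          have a4 := hβ sm
          rw [hD, hθ]
          have : 0 < tt (c sm) * (η sm * deriv (mu (η sm)) (tt (c sm)) /
            mu (η sm) (tt (c sm)) ^ 2 * deriv c sm 3 ^ 2) := by positivity
          linarith
        · have := hlam r
          simp only [Pi.neg_apply] at hr
          nlinarith
  · exfalso
    have hΔ : c T 3 = c 0 3 := by
      have := const_of_deriv (f := fun s => Lf (tt (c s)) * deriv c s 2 - η 0 * JJ c 0 * c s 3)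
        (fun s => ((n_theta hη hg s).sub ((d 3 s).const_mul _)).congr_deriv
          (by rw [hJ s 0, sub_self])) T 0
      have e1 : tt (c T) = tt (c 0) := by simpa using pt 0
      have e2 : deriv c T 2 = deriv c 0 2 := by simpa using pd 2 p2 0
      simp only [e1, e2, sub_right_inj] at this
      exact mul_left_cancel₀ hA this
    obtain ⟨r, hr, hr0⟩ := rolle 3 hΔ
    have hθ := mvt' hr hsM (by positivity) (d 2) fun s _ => theta_le (h0 s) (h1 s) hE (hs s)
    have hθ' : (c sM 2 - c r 2) ^ 2 ≤ (1 / 4) ^ 2 := by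
      refine sq_le_sq' ?_ ?_ <;>
      · have : 4 / kap * E * T ≤ 1 / 4 := by
          rw [mul_assoc, div_mul_eq_mul_div, div_le_iff₀ hk]
          linarith
        linarith [abs_le.1 hθ]
    obtain ⟨D, D1, D2, D4⟩ := n_rad hη hc hg sM (crit sM (Or.inl hM))
    have hJM : JJ c sM ≠ 0 := fun h => hA (by rw [← hJ sM 0, h, mul_zero])
    have ht : 0 < tt (c sM) := (tt_nonneg _).lt_of_ne fun h => hJM (by
      rw [← h, zero_mul] at D1
      exact pow_eq_zero_iff two_ne_zero |>.1 D1.symm)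
    refine not_max dt D4 (by simp [crit sM (Or.inl hM)]) ?_ (fun r hr => ?_) hM
    · have a0 := h0 sM
      have a1 := mu_pos a0 (h1 sM) (tt_nonneg (c sM))
      obtain ⟨a2, a3⟩ := mu_deriv a0 (h1 sM) (tt (c sM))
      have a4 := Lf_deriv (tt_nonneg (c sM))
      have a5 : deriv c sM 3 / mu (η sM) (tt (c sM)) = -((c sM 2 - c r 2) * JJ c sM) := by
        have := hB sM r
        rw [hr0, mul_zero, add_zero, hJ r sM, Hf] at this
        apply mul_left_cancel₀ a0.ne'
        rw [← mul_div_assoc, mul_div_right_comm]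
        linarith
      have a6 : η sM * deriv (mu (η sM)) (tt (c sM)) / mu (η sM) (tt (c sM)) ^ 2 *
          deriv c sM 3 ^ 2 = η sM * deriv (mu (η sM)) (tt (c sM)) *
            ((c sM 2 - c r 2) ^ 2 * (tt (c sM) * D)) := by
        rw [D1, ← mul_pow, ← neg_sq (_ * _), ← a5]
        ring
      have a7 : 0 < D := D2.lt_of_ne fun h => hJM (by
        rw [← h, mul_zero] at D1
        exact pow_eq_zero_iff two_ne_zero |>.1 D1.symm)
      have a8 : tt (c sM) * (deriv (mu (η sM)) (tt (c sM)) *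
          ((c sM 2 - c r 2) ^ 2 * tt (c sM))) ≤ 2 * (1 * ((1 / 4) ^ 2 * 2)) := by
        have := (hU sM).le
        have : 0 ≤ deriv (mu (η sM)) (tt (c sM)) := by linarith
        gcongr
      have a9 : 0 ≤ tt (c sM) * (deriv Lf (tt (c sM)) * deriv c sM 2 ^ 2) := by positivity
      rw [a6]
      nlinarith [mul_pos a0 a7]
    · have := hlam r
      nlinarith

end

end Pool.Agent.Lib.SC14
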